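import Pool.Agent.helper90.IV.Spec

set_option autoImplicit false

open scoped BigOperators

namespace Pool.Agent.helper4.IV

open Pool.Agent.helper23.TH Pool.Agent.KS Pool.Agent.IV

open Classical

/-- heavy stars in caterpillars -/
theorem HV (hSK : SK_stmt) (hCHY : CHY_stmt) (hCPY : CPY_stmt) (hFNY : FNY_stmt) : HV_stmt := by
  intro s h pj q hs
  obtain ⟨Ch₀, hF⟩ := hFNY s h pj q hs
  refine ⟨Ch₀, fun Ch hCh ε hε => ?_⟩
  obtain ⟨c, hc, hS⟩ := hSK s h pj ε hs hε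
  obtain ⟨L, hL, hC⟩ := hCPY s h pj q (c / 2) (by positivity)
  obtain ⟨L', hL', hY⟩ := hCHY s h pj c L hs hc
  refine ⟨L', hL', ?_⟩
  intro V K _ A B lam M Y D₁ hpr hBA hM hdeg hheavy h1 h2
  have hsk := hS V A B Ch M Y D₁ hM hheavy hdeg
  obtain ⟨y, hyinj, hG, hGX⟩ := hY V A B Ch M Y D₁ hM hdeg h1 h2 hsk
  obtain ⟨X, hX1, hX2, hX3, hX4⟩ := hC V K A B lam M y (GX A B Ch M y) hpr hBA hyinj hG
    (fun xh hxh i => ((Finset.mem_filter.1 hxh).2.1 i)) hGX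
  refine hF Ch hCh V K A lam y X hpr hyinj ?_ ?_ hX2 hX3 hX4
  · intro j i k
    have := (Finset.mem_filter.1 (hX1 j)).2.1 i
    exact hBA _ _ ((Finset.mem_filter.1 this).2 k)
  · intro j u
    exact (Finset.mem_filter.1 (hX1 j)).2.2 u

end Pool.Agent.helper4.IV
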